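import Pool.Agent.Helper89.Dual.Defs
import Pool.Agent.Helper89.Dual.Elem
import Pool.Agent.Helper89.Dual.Map
set_option autoImplicit false

/-!
Every normal tiling of the plane with convex tiles has a normal dual tiling whose tiles are all
convex polygons.
-/

namespace Pool.Agent.Results.MP_1d464e_co.ConvexDual

open Pool.Agent.Helper89.Dual Set Metric

/-- Every normal tiling of the plane by convex tiles has a normal dual tiling all of whose tiles
are convex polygons. -/
theorem result : ∀ T : Set (Set ℂ), IsNormalTiling T → (∀ t ∈ T, Convex ℝ t) →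
    ∃ T' : Set (Set ℂ), IsNormalTiling T' ∧ (∀ t ∈ T', IsConvexPolygon t) ∧ AreDual T T' := by
  intro T hT hconv
  obtain ⟨u, U, hu, huU, hbd⟩ := hT.bounded
  choose a ha using fun t : T => (hbd t.1 t.2).1
  choose b hb using fun t : T => (hbd t.1 t.2).2
  have hct : CT (fun t : T => (t : Set ℂ)) a u (2 * U) := by
    refine ⟨hu, fun t => hconv t t.2, fun t => hT.closed t t.2, ha, ?_, ?_, ?_⟩
    · intro t x hx
      have h1 := hb t hx
      have h2 := hb t (ha t (mem_closedBall_self hu.le))
      rw [mem_closedBall] at h1 h2 ⊢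
      have := dist_triangle x (b t) (a t)
      rw [dist_comm (b t) (a t)] at this
      linarith
    · intro z
      have hz : z ∈ ⋃₀ T := by rw [hT.cover]; exact mem_univ z
      obtain ⟨t, ht, hzt⟩ := hz
      exact ⟨⟨t, ht⟩, hzt⟩
    · intro s t hst
      exact hT.disjoint s s.2 t t.2 (fun he => hst (Subtype.ext he))
  obtain ⟨p, R, e, he, hB, hUH⟩ := exists_map hct
  obtain ⟨η, hη, hM⟩ := hct.margin he hB hUH
  obtain ⟨T', h1, h2, h3⟩ := dual_of_margin hct hη hB hM
  refine ⟨T', h1, h2, ?_⟩
  have hr : range (fun t : T => (t : Set ℂ)) = T := Subtype.range_coe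
  rwa [hr] at h3

end Pool.Agent.Results.MP_1d464e_co.ConvexDual
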